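import Pool.Agent.helper37.CZ.SpecD

set_option autoImplicit false

open scoped Matrix Topology ComplexConjugate
open Filter

namespace Pool.Agent.CZ

theorem TV1_zpow_fix {X : Type} [TopologicalSpace X] (β : X ≃ₜ X) (x : X) (h : β x = x) (q : ℤ) :
    (β ^ q) x = x := by
  induction q using Int.induction_on with
  | zero => rfl
  | succ k ih =>
    rw [zpow_add_one]
    change (β ^ (k : ℤ)) (β x) = x
    rw [h, ih]
  | pred k ih =>
    rw [zpow_sub_one]
    change (β ^ (-(k : ℤ))) (β⁻¹ x) = x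
    have h2 : β⁻¹ x = x := by
      have h3 : (β⁻¹ * β) x = x := by rw [inv_mul_cancel]; rfl
      change β⁻¹ (β x) = x at h3
      rw [h] at h3
      exact h3
    rw [h2, ih]

theorem TV1_free {X : Type} [TopologicalSpace X] [T2Space X] [Infinite X] (α : X ≃ₜ X)
    (hmin : IsMinimal α) (n : ℤ) (hn : n ≠ 0) (x : X) : (α ^ n) x ≠ x := by
  intro h
  have hfin : (Set.range (fun m : ℤ => (α ^ m) x)).Finite := by
    refine (Set.finite_Ico (0 : ℤ) |n|).image (fun m : ℤ => (α ^ m) x) |>.subset ?_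
    rintro y ⟨m, rfl⟩
    refine ⟨m % n, ⟨Int.emod_nonneg m hn, Int.emod_lt_abs m hn⟩, ?_⟩
    have h1 : (α ^ m) x = (α ^ (m % n)) ((α ^ (n * (m / n))) x) := by
      change (α ^ m) x = (α ^ (m % n) * α ^ (n * (m / n))) x
      rw [← zpow_add, Int.emod_add_mul_ediv]
    have h2 : (α ^ (n * (m / n))) x = x := by
      rw [zpow_mul]
      exact TV1_zpow_fix (α ^ n) x h (m / n)
    simp only
    rw [h1, h2]
  have hcl : IsClosed (Set.range (fun m : ℤ => (α ^ m) x)) := hfin.isClosed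
  have huniv : Set.range (fun m : ℤ => (α ^ m) x) = Set.univ := by
    rw [← hcl.closure_eq]
    exact (hmin x).closure_eq
  rw [huniv] at hfin
  exact Set.infinite_univ hfin

theorem TV1_k {X : Type} [TopologicalSpace X] [CompactSpace X] [T2Space X] [Infinite X] (α : X ≃ₜ X)
    (hmin : IsMinimal α) (n : ℤ) (hn : n ≠ 0) (x : X) :
    ∃ k : C(X, ℝ), k x = 1 ∧ ∀ y, k y * k ((α ^ (-n)) y) = 0 := by
  obtain ⟨U, V, hU, hV, hxU, hxV, hUV⟩ := t2_separation (TV1_free α hmin n hn x).symm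
  have hO : IsOpen (U ∩ (α ^ n) ⁻¹' V) := hU.inter (hV.preimage (α ^ n).continuous)
  have hxO : x ∈ U ∩ (α ^ n) ⁻¹' V := ⟨hxU, hxV⟩
  obtain ⟨k, hk0, hk1, -⟩ := exists_continuous_zero_one_of_isClosed (X := X)
    (s := (U ∩ (α ^ n) ⁻¹' V)ᶜ) (t := {x}) hO.isClosed_compl isClosed_singleton
    (by rw [Set.disjoint_singleton_right]; exact fun h => h hxO)
  refine ⟨k, hk1 rfl, fun y => ?_⟩
  by_cases hy : y ∈ U ∩ (α ^ n) ⁻¹' V
  · have hy2 : (α ^ (-n)) y ∉ U ∩ (α ^ n) ⁻¹' V := by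
      intro h
      have h1 : (α ^ n) ((α ^ (-n)) y) = y := by
        change (α ^ n * α ^ (-n)) y = y
        rw [← zpow_add, add_neg_cancel, zpow_zero]
        rfl
      have h2 : (α ^ n) ((α ^ (-n)) y) ∈ V := h.2
      rw [h1] at h2
      exact Set.disjoint_left.1 hUV hy.1 h2
    rw [hk0 hy2, Pi.zero_apply, mul_zero]
  · rw [hk0 hy, Pi.zero_apply, zero_mul]

theorem TV1_one {X : Type} [TopologicalSpace X] [CompactSpace X] (α : X ≃ₜ X) {A : Type} [CStarAlgebra A]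
    (ι : C(X, ℂ) →⋆ₐ[ℂ] A) (u : unitary A) (n : ℤ)
    (hcex : ∀ f : C(X, ℂ), up u n * ι f = ι (sh α (-n) f) * up u n) (t : TracialState A)
    (k F : C(X, ℂ)) (hk : ∀ y, k y * k ((α ^ (-n)) y) = 0) : t.τ (ι (k * (F * k)) * up u n) = 0 := by
  have h0 : k * sh α (-n) k = 0 := by
    ext y
    exact hk y
  have e1 : ι (k * (F * k)) * up u n = ι k * (ι (F * k) * up u n) := by
    rw [map_mul, mul_assoc]
  have e2 : ι (F * k) * up u n * ι k = ι (F * (k * sh α (-n) k)) * up u n := by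
    rw [mul_assoc, hcex, ← mul_assoc, ← map_mul, mul_assoc]
  rw [e1, t.comm, e2, h0, mul_zero, map_zero, zero_mul, map_zero]

theorem TV1 (h1 : CEX_stmt) : TV1_stmt := by
  intro X _ _ _ _ α A _ ι u c hcov hmin t n f hn
  have hcex := h1 X α A ι u c hcov n
  choose k hk1 hk2 using fun x => TV1_k α hmin n hn x
  obtain ⟨T, -, hT⟩ := isCompact_univ.elim_nhds_subcover (fun x => {y | k x y ≠ 0})
    (fun x _ => (isOpen_ne_fun (k x).continuous continuous_const).mem_nhds (by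
      change k x x ≠ 0
      rw [hk1]
      exact one_ne_zero))
  obtain ⟨s, hs⟩ : ∃ s : C(X, ℂ), s = ∑ x ∈ T, rc (k x) * rc (k x) := ⟨_, rfl⟩
  have hsy : ∀ y, s y = ((∑ x ∈ T, k x y * k x y : ℝ) : ℂ) := by
    intro y
    rw [hs, ContinuousMap.sum_apply, Complex.ofReal_sum]
    refine Finset.sum_congr rfl fun x _ => ?_
    rw [Complex.ofReal_mul]
    rfl
  have hs0 : ∀ y, s y ≠ 0 := by
    intro y
    rw [hsy]
    have hy := hT (Set.mem_univ y)
    simp only [Set.mem_iUnion] at hy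
    obtain ⟨x, hxT, hxy⟩ := hy
    have hpos : 0 < ∑ x ∈ T, k x y * k x y := by
      refine Finset.sum_pos' (fun i _ => mul_self_nonneg _) ⟨x, hxT, ?_⟩
      exact mul_self_pos.2 hxy
    exact_mod_cast hpos.ne'
  obtain ⟨F, hF⟩ : ∃ F : C(X, ℂ), ∀ y, F y = f y / s y :=
    ⟨⟨fun y => f y / s y, f.continuous.div s.continuous hs0⟩, fun _ => rfl⟩
  have hf : f = ∑ x ∈ T, rc (k x) * (F * rc (k x)) := by
    ext y
    have e : f y = F y * s y := by
      rw [hF, div_mul_cancel₀ _ (hs0 y)]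
    rw [e, hs, ContinuousMap.sum_apply, ContinuousMap.sum_apply, Finset.mul_sum]
    refine Finset.sum_congr rfl fun x _ => ?_
    simp only [ContinuousMap.mul_apply]
    ring
  rw [hf, map_sum, Finset.sum_mul, map_sum]
  refine Finset.sum_eq_zero fun x _ => ?_
  refine TV1_one α ι u n hcex t (rc (k x)) F fun y => ?_
  change ((k x y : ℝ) : ℂ) * ((k x ((α ^ (-n)) y) : ℝ) : ℂ) = 0
  rw [← Complex.ofReal_mul, hk2, Complex.ofReal_zero]

end Pool.Agent.CZ
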